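import Pool.Agent.Helper484.Angle

set_option autoImplicit false

namespace Pool.Agent.Results.MP_7917db_co.CapRadius

open Finset

/-- The closed caps of angular radius `r` centred at the points of `X` cover the sphere
`S^(n-1)`. -/
def Covers {n : ℕ} (X : Finset (EuclideanSpace ℝ (Fin n))) (r : ℝ) : Prop :=
  ∀ y : EuclideanSpace ℝ (Fin n), ‖y‖ = 1 → ∃ x ∈ X, InnerProductGeometry.angle y x ≤ r

/-- The number `r(n,k)`: the least covering radius of a set of at most `n + k` points of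
`S^(n-1)`. -/
noncomputable def rmin (n k : ℕ) : ℝ :=
  sInf {r : ℝ | ∃ X : Finset (EuclideanSpace ℝ (Fin n)),
    (∀ x ∈ X, ‖x‖ = 1) ∧ X.card ≤ n + k ∧ Covers X r}

/-- `X` is the union of the vertex sets of `k` mutually orthogonal regular simplices of
dimension `q` inscribed in the unit sphere. -/
def OrthogonalSimplices {n : ℕ} (k q : ℕ) (X : Finset (EuclideanSpace ℝ (Fin n))) : Prop :=
  ∃ f : EuclideanSpace ℝ (Fin n) → Fin k,
    (∀ b : Fin k, (X.filter (fun x => f x = b)).card = q + 1) ∧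
    ∀ x ∈ X, ∀ y ∈ X, x ≠ y →
      (f x = f y → @inner ℝ _ _ x y = -1 / (q : ℝ)) ∧ (f x ≠ f y → @inner ℝ _ _ x y = 0)

/-- The sum of the squares of the `k` most equal positive integers with sum `n`. -/
def balanced (n k : ℕ) : ℕ := (k - n % k) * (n / k) ^ 2 + (n % k) * (n / k + 1) ^ 2

lemma exists_family {n k : ℕ} (hn : 0 < n) {X : Finset (EuclideanSpace ℝ (Fin n))}
    (hcard : X.card ≤ n + k) {r : ℝ} (hcov : Covers X r) :
    ∃ c : Fin (n + k) → EuclideanSpace ℝ (Fin n), Set.range c = (X : Set _) := by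
  classical
  have hne : X.Nonempty := by
    obtain ⟨x, hx⟩ : ∃ x : EuclideanSpace ℝ (Fin n), ‖x‖ = 1 :=
      ⟨EuclideanSpace.single ⟨0, hn⟩ 1, by simp⟩
    obtain ⟨y, hy, -⟩ := hcov x hx
    exact ⟨y, hy⟩
  obtain ⟨x0, hx0⟩ := hne
  let e := X.equivFin
  refine ⟨fun i => if h : (i : ℕ) < X.card then (e.symm ⟨i, h⟩ : EuclideanSpace ℝ (Fin n)) else x0,
    ?_⟩
  ext y
  constructor
  · rintro ⟨i, rfl⟩
    by_cases h : (i : ℕ) < X.card
    · simp [h]
    · simp [h, hx0]
  · intro hy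
    have hy' : y ∈ X := hy
    refine ⟨⟨e ⟨y, hy'⟩, lt_of_lt_of_le (e ⟨y, hy'⟩).2 hcard⟩, ?_⟩
    simp

lemma nonneg_of_covers {n : ℕ} (hn : 0 < n) {X : Finset (EuclideanSpace ℝ (Fin n))} {r : ℝ}
    (hcov : Covers X r) : 0 ≤ r := by
  obtain ⟨x, hx⟩ : ∃ x : EuclideanSpace ℝ (Fin n), ‖x‖ = 1 :=
    ⟨EuclideanSpace.single ⟨0, hn⟩ 1, by simp⟩
  obtain ⟨i, -, hi⟩ := hcov x hx
  exact (InnerProductGeometry.angle_nonneg _ _).trans hi

lemma lower {n k : ℕ} (hk : 0 < k) (hkn : k ≤ n) {X : Finset (EuclideanSpace ℝ (Fin n))}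
    (hX : ∀ x ∈ X, ‖x‖ = 1) (hcard : X.card ≤ n + k) {r : ℝ} (hcov : Covers X r) :
    Real.arccos (Real.sqrt k / n) ≤ r := by
  have hn : 0 < n := lt_of_lt_of_le hk hkn
  by_contra hlt
  push Not at hlt
  have hrπ : r ≤ Real.pi := hlt.le.trans (Real.arccos_le_pi _)
  have hr0 := nonneg_of_covers hn hcov
  obtain ⟨c, hc⟩ := exists_family hn hcard hcov
  have hc1 : ∀ i, ‖c i‖ = 1 := fun i => hX _ (by
    have : c i ∈ Set.range c := ⟨i, rfl⟩
    rw [hc] at this; exact this)
  have h1 : Real.cos r ≤ Real.sqrt k / n := by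
    apply Helper484.level_le hn hk (by simp) c hc1
    intro y hy
    obtain ⟨x, hx, hxy⟩ := hcov y hy
    have hx' : x ∈ Set.range c := by rw [hc]; exact hx
    obtain ⟨i, rfl⟩ := hx'
    exact ⟨i, Helper484.cos_le_inner_of_angle_le hy (hc1 i) hrπ hxy⟩
  have h2 : Real.arccos (Real.sqrt k / n) ≤ Real.arccos (Real.cos r) := Real.arccos_le_arccos h1
  rw [Real.arccos_cos hr0 hrπ] at h2
  linarith

lemma upper {n k : ℕ} (hk : 0 < k) (s : Fin k → ℕ) (hs : ∀ b, 1 ≤ s b)
    (hsum : ∑ b, s b = n) :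
    ∃ X : Finset (EuclideanSpace ℝ (Fin n)), (∀ x ∈ X, ‖x‖ = 1) ∧ X.card ≤ n + k ∧
      Covers X (Real.arccos (1 / Real.sqrt (∑ b, (s b : ℝ) ^ 2))) := by
  classical
  obtain ⟨x, h1, -, -, h4⟩ := Helper484.block_config s hs hsum
  have hcard : Fintype.card (Σ b : Fin k, Fin (s b + 1)) = n + k := by
    rw [Fintype.card_sigma]
    simp only [Fintype.card_fin]
    rw [Finset.sum_add_distrib, hsum]; simp
  refine ⟨univ.image x, ?_, ?_, ?_⟩
  · intro y hy
    rw [Finset.mem_image] at hy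
    obtain ⟨i, -, rfl⟩ := hy
    exact h1 i
  · calc (univ.image x).card ≤ (univ : Finset (Σ b : Fin k, Fin (s b + 1))).card :=
        Finset.card_image_le
      _ = n + k := by rw [Finset.card_univ, hcard]
  · intro y hy
    obtain ⟨i, hi⟩ := h4 y hy
    refine ⟨x i, Finset.mem_image_of_mem _ (mem_univ i), ?_⟩
    have hge : (1:ℝ) ≤ ∑ b, (s b : ℝ) ^ 2 := by
      have h5 : (1:ℝ) ≤ (s ⟨0, hk⟩ : ℝ) := by exact_mod_cast hs ⟨0, hk⟩
      calc (1:ℝ) ≤ (s ⟨0, hk⟩ : ℝ) ^ 2 := by nlinarith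
        _ ≤ ∑ b, (s b : ℝ) ^ 2 :=
          Finset.single_le_sum (f := fun b => (s b : ℝ) ^ 2) (fun b _ => sq_nonneg _) (mem_univ _)
    have h6 : 1 ≤ Real.sqrt (∑ b, (s b : ℝ) ^ 2) := Real.one_le_sqrt.mpr hge
    have h7 : 1 / Real.sqrt (∑ b, (s b : ℝ) ^ 2) ≤ 1 := by
      rw [div_le_one (by linarith)]; exact h6
    have h8 : 0 ≤ 1 / Real.sqrt (∑ b, (s b : ℝ) ^ 2) := by positivity
    exact (Helper484.angle_le_arccos hy (h1 i) (by linarith) h7).mpr hi

/-- the balanced sizes. -/
lemma balanced_sizes {n k : ℕ} (hk : 0 < k) (hkn : k ≤ n) :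
    ∃ s : Fin k → ℕ, (∀ b, 1 ≤ s b) ∧ (∑ b, s b = n) ∧
      (∑ b, (s b : ℝ) ^ 2 = (balanced n k : ℝ)) := by
  have hq : 1 ≤ n / k := (Nat.one_le_div_iff hk).mpr hkn
  have hr : n % k < k := Nat.mod_lt n hk
  have hcount : (univ.filter (fun b : Fin k => (b : ℕ) < n % k)).card = n % k := by
    have h1 : (univ.filter (fun b : Fin k => (b : ℕ) < n % k)) =
        Finset.Iio (⟨n % k, hr⟩ : Fin k) := by
      ext b; simp [Fin.lt_def]
    rw [h1, Fin.card_Iio]
  have hcount' : (univ.filter (fun b : Fin k => ¬ (b : ℕ) < n % k)).card = k - n % k := by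
    have h2 := Finset.card_filter_add_card_filter_not (s := (univ : Finset (Fin k)))
      (fun b : Fin k => (b : ℕ) < n % k)
    rw [hcount, Finset.card_univ, Fintype.card_fin] at h2
    omega
  refine ⟨fun b => if (b : ℕ) < n % k then n / k + 1 else n / k, ?_, ?_, ?_⟩
  · intro b
    dsimp only
    split_ifs <;> omega
  · rw [Finset.sum_ite, Finset.sum_const, Finset.sum_const, hcount, hcount', smul_eq_mul,
      smul_eq_mul]
    have h3 := Nat.div_add_mod n k
    have h4 : n % k * (n / k + 1) + (k - n % k) * (n / k) =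
        (n % k + (k - n % k)) * (n / k) + n % k := by ring
    rw [h4, Nat.add_sub_cancel' hr.le]
    exact h3
  · have h5 : ∀ b : Fin k, (((if (b : ℕ) < n % k then n / k + 1 else n / k : ℕ) : ℝ)) ^ 2 =
        if (b : ℕ) < n % k then ((n / k : ℕ) + 1 : ℝ) ^ 2 else ((n / k : ℕ) : ℝ) ^ 2 := by
      intro b
      split_ifs <;> push_cast <;> ring
    rw [Finset.sum_congr rfl (fun b _ => h5 b), Finset.sum_ite, Finset.sum_const,
      Finset.sum_const, hcount, hcount', nsmul_eq_mul, nsmul_eq_mul, balanced]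
    push_cast
    ring

lemma balanced_identity {n k : ℕ} (hk : 0 < k) :
    (k : ℝ) * balanced n k = (n : ℝ) ^ 2 + (n % k : ℕ) * ((k : ℝ) - (n % k : ℕ)) := by
  have hr : n % k < k := Nat.mod_lt n hk
  have h1 : (n : ℝ) = k * (n / k : ℕ) + (n % k : ℕ) := by
    exact_mod_cast (Nat.div_add_mod n k).symm
  rw [balanced]
  push_cast [Nat.cast_sub hr.le]
  set q : ℝ := ((n / k : ℕ) : ℝ)
  set r : ℝ := ((n % k : ℕ) : ℝ)
  rw [h1]
  ring

lemma balanced_le {n k : ℕ} (hk : 0 < k) (hkn : k ≤ n) :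
    8 * ((k : ℝ) * balanced n k) ≤ 9 * (n : ℝ) ^ 2 := by
  rw [balanced_identity hk]
  have hq : 1 ≤ n / k := (Nat.one_le_div_iff hk).mpr hkn
  have h1 : n = k * (n / k) + n % k := (Nat.div_add_mod n k).symm
  have h2 : k + n % k ≤ n := by
    calc k + n % k ≤ k * (n / k) + n % k := by
          have := Nat.le_mul_of_pos_right k hq
          omega
      _ = n := h1.symm
  have h3 : (k : ℝ) + (n % k : ℕ) ≤ n := by exact_mod_cast h2
  have h4 : (0:ℝ) ≤ (n % k : ℕ) := Nat.cast_nonneg _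
  have h5 : (0:ℝ) < k := by exact_mod_cast hk
  nlinarith [sq_nonneg ((k:ℝ) - 3 * (n % k : ℕ)), mul_self_nonneg ((n:ℝ) - k - (n % k : ℕ)),
    mul_nonneg (sub_nonneg.mpr h3) (by linarith : (0:ℝ) ≤ (k : ℝ) + (n % k : ℕ))]

lemma rmin_bounds {n k : ℕ} (hk : 0 < k) (hkn : k ≤ n) :
    Real.arccos (Real.sqrt k / n) ≤ rmin n k ∧
    rmin n k ≤ Real.arccos (1 / Real.sqrt (balanced n k)) := by
  obtain ⟨s, hs1, hs2, hs3⟩ := balanced_sizes hk hkn
  obtain ⟨X, hX1, hX2, hX3⟩ := upper hk s hs1 hs2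
  rw [hs3] at hX3
  constructor
  · refine le_csInf ⟨Real.arccos (1 / Real.sqrt (balanced n k)), X, hX1, hX2, hX3⟩ ?_
    rintro r ⟨Y, hY1, hY2, hY3⟩
    exact lower hk hkn hY1 hY2 hY3
  · apply csInf_le
    · refine ⟨Real.arccos (Real.sqrt k / n), ?_⟩
      rintro r ⟨Y, hY1, hY2, hY3⟩
      exact lower hk hkn hY1 hY2 hY3
    · exact ⟨X, hX1, hX2, hX3⟩

/-- Covering the sphere by `n + k` equal caps. -/
theorem result (n k : ℕ) (hk : 1 ≤ k) (hkn : k ≤ n) :
    (1 / Real.sqrt (balanced n k) ≤ Real.cos (rmin n k) ∧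
      Real.cos (rmin n k) ≤ Real.sqrt k / n) ∧
    (k : ℝ) * balanced n k = (n : ℝ) ^ 2 + (n % k : ℕ) * ((k : ℝ) - (n % k : ℕ)) ∧
    Real.sqrt (8 / 9) * (Real.sqrt k / n) ≤ Real.cos (rmin n k) ∧
    (k ∣ n → rmin n k = Real.arccos (Real.sqrt k / n) ∧
      ∀ X : Finset (EuclideanSpace ℝ (Fin n)), (∀ x ∈ X, ‖x‖ = 1) → X.card ≤ n + k →
        (Covers X (rmin n k) ↔ OrthogonalSimplices k (n / k) X)) := by
  classical
  have hk0 : 0 < k := hk
  have hn : 0 < n := lt_of_lt_of_le hk0 hkn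
  have hk' : (0:ℝ) < k := by exact_mod_cast hk0
  have hn' : (0:ℝ) < n := by exact_mod_cast hn
  obtain ⟨hb1, hb2⟩ := rmin_bounds hk0 hkn
  have hbal := balanced_identity (n := n) hk0
  have hr : ((n % k : ℕ) : ℝ) ≤ k := by exact_mod_cast (Nat.mod_lt n hk0).le
  have hr0 : (0:ℝ) ≤ ((n % k : ℕ) : ℝ) := Nat.cast_nonneg _
  have hBpos : (0:ℝ) < balanced n k := by
    have h1 : 0 < (k:ℝ) * balanced n k := by
      rw [hbal]
      have := mul_nonneg hr0 (sub_nonneg.mpr hr)
      positivity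
    exact (mul_pos_iff_of_pos_left hk').mp h1
  have hB1 : (1:ℝ) ≤ balanced n k := by
    have : 0 < balanced n k := by exact_mod_cast hBpos
    exact_mod_cast this
  have hsB : 1 ≤ Real.sqrt (balanced n k) := Real.one_le_sqrt.mpr hB1
  have hlev1 : 1 / Real.sqrt (balanced n k) ≤ 1 := by
    rw [div_le_one (by linarith)]; exact hsB
  have hlev0 : 0 ≤ 1 / Real.sqrt (balanced n k) := by positivity
  have hsk1 : Real.sqrt k / n ≤ 1 := Helper484.sqrt_div_le_one hk0 hkn
  have hsk0 : 0 ≤ Real.sqrt k / n := by positivity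
  have hrπ : rmin n k ≤ Real.pi := hb2.trans (Real.arccos_le_pi _)
  have hr00 : 0 ≤ rmin n k := (Real.arccos_nonneg _).trans hb1
  have hcos1 : 1 / Real.sqrt (balanced n k) ≤ Real.cos (rmin n k) := by
    have h1 := Real.cos_le_cos_of_nonneg_of_le_pi hr00 (Real.arccos_le_pi _) hb2
    rwa [Real.cos_arccos (by linarith) hlev1] at h1
  have hcos2 : Real.cos (rmin n k) ≤ Real.sqrt k / n := by
    have h1 := Real.cos_le_cos_of_nonneg_of_le_pi (Real.arccos_nonneg _) hrπ hb1
    rwa [Real.cos_arccos (by linarith) hsk1] at h1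
  refine ⟨⟨hcos1, hcos2⟩, hbal, ?_, ?_⟩
  · refine le_trans ?_ hcos1
    have h1 := balanced_le hk0 hkn
    rw [← Real.sqrt_one]
    have e1 : Real.sqrt k / n = Real.sqrt (k / (n:ℝ) ^ 2) := by
      rw [Real.sqrt_div hk'.le, Real.sqrt_sq hn'.le]
    rw [e1, ← Real.sqrt_mul (by norm_num : (0:ℝ) ≤ 8 / 9), ← Real.sqrt_div zero_le_one]
    apply Real.sqrt_le_sqrt
    rw [div_mul_div_comm, div_le_div_iff₀ (by positivity) hBpos]
    nlinarith
  · intro hdiv
    obtain ⟨q, hq⟩ := hdiv
    have hq0 : 0 < q := by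
      rcases Nat.eq_zero_or_pos q with h | h
      · rw [h] at hq; omega
      · exact h
    have hqdiv : n / k = q := by rw [hq]; exact Nat.mul_div_cancel_left q hk0
    have hmod : n % k = 0 := by rw [hq]; exact Nat.mul_mod_right k q
    have hlev : 1 / Real.sqrt (balanced n k) = Real.sqrt k / n := by
      have h1 : (balanced n k : ℝ) = (n:ℝ) ^ 2 / k := by
        rw [hmod] at hbal
        rw [eq_div_iff hk'.ne']
        push_cast at hbal
        linarith
      rw [h1, Real.sqrt_div (by positivity), Real.sqrt_sq hn'.le, one_div_div]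
    have hreq : rmin n k = Real.arccos (Real.sqrt k / n) := by
      rw [hlev] at hb2
      exact le_antisymm hb2 hb1
    refine ⟨hreq, ?_⟩
    intro X hX hcard
    rw [hreq, hqdiv]
    constructor
    · intro hcov
      obtain ⟨c, hc⟩ := exists_family hn hcard hcov
      have hcX : ∀ i, c i ∈ X := fun i => by
        have : c i ∈ Set.range c := ⟨i, rfl⟩
        rw [hc] at this; exact this
      have hc1 : ∀ i, ‖c i‖ = 1 := fun i => hX _ (hcX i)
      obtain ⟨f, hf1, hf2, hf3⟩ := Helper484.structure_of_cover hq0 hk0 hq (by simp) c hc1 (by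
        intro y hy
        obtain ⟨x, hx, hxy⟩ := hcov y hy
        have hx' : x ∈ Set.range c := by rw [hc]; exact hx
        obtain ⟨i, rfl⟩ := hx'
        exact ⟨i, (Helper484.angle_le_arccos hy (hc1 i) (by linarith) hsk1).mp hxy⟩)
      have hq' : (0:ℝ) < q := by exact_mod_cast hq0
      have hinj : Function.Injective c := by
        intro i j hij
        by_contra hne
        have h1 : @inner ℝ _ _ (c i) (c j) = 1 := by
          rw [hij, real_inner_self_eq_norm_sq, hc1, one_pow]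
        by_cases h : f i = f j
        · have h2 := hf2 i j hne h
          rw [h1] at h2
          have h3 : (-1 / (q:ℝ)) < 0 := by
            apply div_neg_of_neg_of_pos <;> linarith
          linarith
        · have h2 := hf3 i j h
          rw [h1] at h2
          norm_num at h2
      have hXc : X = univ.image c := by
        ext x
        rw [Finset.mem_image]
        constructor
        · intro hx
          have hx' : x ∈ Set.range c := by rw [hc]; exact hx
          obtain ⟨i, rfl⟩ := hx'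
          exact ⟨i, mem_univ i, rfl⟩
        · rintro ⟨i, -, rfl⟩
          exact hcX i
      let g : EuclideanSpace ℝ (Fin n) → Fin k := fun x =>
        if h : ∃ i, c i = x then f h.choose else ⟨0, hk0⟩
      have hg : ∀ i, g (c i) = f i := by
        intro i
        have h : ∃ j, c j = c i := ⟨i, rfl⟩
        have h2 : g (c i) = f h.choose := by
          simp only [g]
          rw [dif_pos h]
        rw [h2, hinj h.choose_spec]
      refine ⟨g, ?_, ?_⟩
      · intro b
        rw [← hf1 b, hXc]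
        symm
        apply Finset.card_bij (fun i _ => c i)
        · intro i hi
          rw [Finset.mem_filter] at hi
          rw [Finset.mem_filter, hg]
          exact ⟨Finset.mem_image_of_mem _ (mem_univ i), hi.2⟩
        · intro i _ j _ h
          exact hinj h
        · intro x hx
          rw [Finset.mem_filter, Finset.mem_image] at hx
          obtain ⟨⟨i, -, rfl⟩, h2⟩ := hx
          rw [hg] at h2
          exact ⟨i, by rw [Finset.mem_filter]; exact ⟨mem_univ i, h2⟩, rfl⟩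
      · intro x hx y hy hxy
        rw [hXc, Finset.mem_image] at hx hy
        obtain ⟨i, -, rfl⟩ := hx
        obtain ⟨j, -, rfl⟩ := hy
        rw [hg, hg]
        have hij : i ≠ j := fun h => hxy (congrArg c h)
        exact ⟨fun h => hf2 i j hij h, fun h => hf3 i j h⟩
    · rintro ⟨f, hf1, hf2⟩ y hy
      have hcardX : X.card = n + k := by
        have h1 := Finset.card_eq_sum_card_fiberwise (s := X) (t := univ) (f := f)
          (fun _ _ => by simp)
        simp only [hf1] at h1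
        rw [h1, hq]
        simp
        ring
      obtain ⟨i, hi⟩ := Helper484.cover_of_structure (ι := X) hq0 hk0 hq
        (by rw [Fintype.card_coe, hcardX]) (fun x => (x : EuclideanSpace ℝ (Fin n)))
        (fun x => hX _ x.2) (fun x => f x) (by
          intro x
          rw [← hf1 (f x)]
          apply Finset.card_bij (fun (a : X) _ => (a : EuclideanSpace ℝ (Fin n)))
          · intro a ha
            rw [Finset.mem_filter] at ha ⊢
            exact ⟨a.2, ha.2⟩
          · intro a _ b _ h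
            exact Subtype.ext h
          · intro a ha
            rw [Finset.mem_filter] at ha
            exact ⟨⟨a, ha.1⟩, by rw [Finset.mem_filter]; exact ⟨mem_univ _, ha.2⟩, rfl⟩)
        (fun x z hxz h => (hf2 x x.2 z z.2 (fun h' => hxz (Subtype.ext h'))).1 h)
        (fun x z h => (hf2 x x.2 z z.2 (fun h' => h (congrArg f h'))).2 h) y hy
      exact ⟨i, i.2, (Helper484.angle_le_arccos hy (hX _ i.2) (by linarith) hsk1).mpr hi⟩

end Pool.Agent.Results.MP_7917db_co.CapRadius
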